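import Mathlib
import Pool.Agent.H200M.Near2

set_option autoImplicit false

/-!
# The SHGH conjecture unless the standard form is critical outside chains

A class `(d; w)` is CRITICAL OUTSIDE CHAINS (`Pool.Agent.H200M.TightCh c`, for a function `c` with
positive values) if for every `ε > 0`, `t ≥ 1`, every point `p` and every set `A` of other points with
arbitrary multiplicities on a chain of curves of degrees `E 0 ≥ E 1 ≥ … ≥ 1` with margin `t`
(`Pool.Agent.H200M.ChainCore`), i.e. with `w i ≤ m` for `i ∈ A` and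
* `w p + (E 0 + … + E (m - 1)) + 2 ^ 27 t E 0 ≤ d`,
* for `k < m`, if `k = 0` or `E k < E (k - 1)`:
  `∑_A max (w i - k) 0 + E k (E 0 + … + E (k - 1)) + 2 ^ 31 t E k (E 0 + E k g k) ≤ E k d`,
  where `g k` is the number of the `i ∈ A` with `k < w i ≤ k + 2 ^ 26 t`,
such that `w i ≤ c(ε) t` for all other points `i`, the volume `X = (d + 1) (d + 2) - ∑_{A ∪ p} w i (w i + 1)`
left by the points of the chain is filled by the large ones of the other multiplicities up to the part `ε`
(`Pool.Agent.H200M.Tight`): all other multiplicities together have `|X - ∑ w i (w i + 1)| < ε X`; for every `μ`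
such that all nonzero values `≤ μ` at the other points are taken at least `2 ^ 29` times
there, or the number `k` of the values `≤ μ` satisfies `(k + 1) μ ^ 2 ≤ c(ε) X`, the other
multiplicities `> c(ε) μ` have `∑ w i ^ 2 > (1 - ε) X` and those `≤ c(ε) μ` have `∑ w i ^ 2 < ε X`.

There is a function `c` with positive values such that every class in the Weyl group orbit of a
standard class which is not critical outside chains has `h⁰ = max (0, χ)` at general points. For every class
`D` and general points at least one of the following holds: `h⁰ (D) = max (0, χ)`; some `(-1)`-curve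
`C` has `C D ≤ -2`; or `D`, after the removal of disjoint `(-1)`-curves, each taken once, and finitely
many quadratic transformations, is a standard class with the same `h⁰`, different from
`max (0, χ)`, which is critical outside chains. The numbers of points and the multiplicities are
arbitrary: `c` depends on nothing.

Without any exception: for all `ε > 0` and all `t`, `p`, `A` as above (of a standard class to which
finitely many reflections carry the given class) such that all
other multiplicities are at most `c(ε) t`, the dimension of the space of forms is at most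
`max (χ, ε X / 2)` (`Pool.Agent.H200M.BoundCh`); here `X / 2` is the number of forms left by the chain,
as expected.
-/

namespace Pool.Agent.Results.MP_70e04f_ag.CurveChainForms

open MvPolynomial Pool.Agent.TH167.SHDefs
open Pool.Agent.Y536.SH (Standard)
open Pool.Agent.H200M (TightCh BoundCh dimCh_all)

/-- `h⁰ (D)` for the class `D = d H - ∑ w i E i`. -/
noncomputable def hZero {n : ℕ} (P : Fin n → Fin 2 → ℂ) (d : ℕ) (w : Fin n → ℕ) : ℤ :=
  (Module.finrank ℂ ↥(sys P d w) : ℤ)

/-- The Euler characteristic. -/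
def chi {n : ℕ} (d : ℕ) (w : Fin n → ℕ) : ℤ :=
  ((d + 2).choose 2 : ℤ) - ∑ i, ((w i + 1).choose 2 : ℤ)

/-- The property holds for all `n`-tuples of points outside some hypersurface. -/
def ForGeneral {n : ℕ} (p : (Fin n → Fin 2 → ℂ) → Prop) : Prop :=
  ∃ F : MvPolynomial (Fin n × Fin 2) ℂ, F ≠ 0 ∧ ∀ P : Fin n → Fin 2 → ℂ,
    eval (fun ij : Fin n × Fin 2 => P ij.1 ij.2) F ≠ 0 → p P

/-- The reflection of the class `a = (d; w)`, `d H - ∑ w l E l`, in the class
`H - E (i 0) - E (i 1) - E (i 2)`: with `δ = d - w (i 0) - w (i 1) - w (i 2)`, the numbers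
`d`, `w (i 0)`, `w (i 1)`, `w (i 2)` are increased by `δ`. -/
def reflect {n : ℕ} (i : Fin 3 → Fin n) (a : ℤ × (Fin n → ℤ)) : ℤ × (Fin n → ℤ) :=
  (a.1 + (a.1 - a.2 (i 0) - a.2 (i 1) - a.2 (i 2)),
    fun l => a.2 l + if l = i 0 ∨ l = i 1 ∨ l = i 2 then a.1 - a.2 (i 0) - a.2 (i 1) - a.2 (i 2)
      else 0)

/-- Finitely many reflections carry `(d; w)` to `(d'; w')`. -/
def Carries {n : ℕ} (d : ℕ) (w : Fin n → ℕ) (d' : ℕ) (w' : Fin n → ℕ) : Prop :=
  Relation.ReflTransGen
    (fun a b : ℤ × (Fin n → ℤ) => ∃ i : Fin 3 → Fin n, Function.Injective i ∧ b = reflect i a)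
    ((d : ℤ), fun l => (w l : ℤ)) ((d' : ℤ), fun l => (w' l : ℤ))

theorem hZero_of {n : ℕ} {P : Fin n → Fin 2 → ℂ} {d : ℕ} {w : Fin n → ℕ}
    (h : Pool.Agent.H932R3.ExpDim ℂ w P d) : hZero P d w = max 0 (chi d w) := by
  have h1 : Module.finrank ℂ ↥(sys P d w) =
      Nat.choose (d + 2) 2 - ∑ i, Nat.choose (w i + 1) 2 := h
  have h2 : ∑ i, ((w i + 1).choose 2 : ℤ) = ((∑ i, Nat.choose (w i + 1) 2 : ℕ) : ℤ) := by
    push_cast
    rfl
  unfold hZero chi
  rw [h1, h2]
  omega

theorem special_of_ne {n : ℕ} {P : Fin n → Fin 2 → ℂ} {d : ℕ} {w : Fin n → ℕ} :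
    hZero P d w ≠ max 0 (chi d w) ↔ Pool.Agent.TH167.SH.Special P d w := by
  unfold hZero Pool.Agent.TH167.SH.Special
  rw [Pool.Agent.TH167.SH.sys_eq]
  exact Iff.rfl

theorem result : ∃ c : ℝ → ℝ, (∀ ε, 0 < ε → 0 < c ε) ∧ ∀ n : ℕ, 4 ≤ n →
    ∀ (d : ℕ) (w : Fin n → ℕ), ForGeneral fun P =>
    ((∃ (d' : ℕ) (w' : Fin n → ℕ), Carries d w d' w' ∧ Standard d' w' ∧
          ¬ TightCh c d' w') →
        hZero P d w = max 0 (chi d w)) ∧
    (∀ (d' : ℕ) (w' : Fin n → ℕ), Carries d w d' w' → Standard d' w' →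
      BoundCh c d' w' (hZero P d w)) ∧
    (hZero P d w = max 0 (chi d w) ∨
      (∃ (G : MvPolynomial (Fin 3) ℂ) (e : ℕ) (u : Fin n → ℕ), MinusOne P G e u ∧
        inter d w e u ≤ -2) ∨
      ∃ (d'' : ℕ) (w'' : Fin n → ℕ) (k : ℕ) (G : Fin k → MvPolynomial (Fin 3) ℂ)
        (e : Fin k → ℕ) (u : Fin k → Fin n → ℕ) (d' : ℕ) (w' : Fin n → ℕ),
        Decomp P d w d'' w'' G e u (fun _ => 1) ∧
        Relation.ReflTransGen Quadratic (d'', w'') (d', w') ∧ Standard d' w' ∧
        hZero P d' w' = hZero P d w ∧ hZero P d' w' ≠ max 0 (chi d' w') ∧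
        TightCh c d' w') := by
  obtain ⟨c, hc, H, HB⟩ := dimCh_all
  refine ⟨c, hc, fun n hn d w => ?_⟩
  obtain ⟨F1, hF1, hF1'⟩ : ForGeneral fun P : Fin n → Fin 2 → ℂ =>
      (∃ (d' : ℕ) (w' : Fin n → ℕ), Carries d w d' w' ∧ Standard d' w' ∧ ¬ TightCh c d' w') →
        hZero P d w = max 0 (chi d w) := by
    by_cases h : ∃ (d' : ℕ) (w' : Fin n → ℕ), Carries d w d' w' ∧ Standard d' w' ∧
        ¬ TightCh c d' w'
    · obtain ⟨d', w', hc, hs, hG⟩ := h
      obtain ⟨F, hF, hF'⟩ := Pool.Agent.TH442.NF.to_open (d := d) (w := w)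
        fun {_ _ _ P} hP => Pool.Agent.TH442.NF.up_enef hP hc
          (Pool.Agent.TH442.NF.enef_of_std hn P hs)
          (H w' hG hP)
      refine ⟨F.map (algebraMap ℚ ℂ), Pool.Agent.H932R3.map_ne_zero_of hF, fun P hP _ => ?_⟩
      rw [MvPolynomial.eval_map] at hP
      exact hZero_of (hF' (L := ℂ) P hP)
    · exact ⟨1, one_ne_zero, fun P _ h' => absurd h' h⟩
  obtain ⟨F2, hF2, hF2'⟩ := HB.open hn d w
  obtain ⟨r, rfl⟩ : ∃ r, n = r + 4 := ⟨n - 4, by omega⟩
  obtain ⟨F, hF, hF'⟩ := Pool.Agent.Y536.SH.hh_full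
    (Q := fun d' w' => ¬ TightCh c d' w') (fun hP d1 w1 hr hG => H w1 hG hP) d w
  refine ⟨F2.map (algebraMap ℚ ℂ) * (F1 * F.map (algebraMap ℚ ℂ)),
    mul_ne_zero (Pool.Agent.H932R3.map_ne_zero_of hF2)
      (mul_ne_zero hF1 (Pool.Agent.TH167.SH.map_ne hF)), fun P hP' => ?_⟩
  rw [map_mul] at hP'
  have hP := right_ne_zero_of_mul hP'
  have hP3 := left_ne_zero_of_mul hP'
  rw [eval_map] at hP3
  rw [map_mul] at hP
  refine ⟨hF1' P (left_ne_zero_of_mul hP), fun d' w' h1 hs => ?_, ?_⟩
  · have h2 := hF2' ℂ P hP3 d' w' h1 hs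
    unfold hZero
    rw [Int.cast_natCast]
    exact h2
  have hP2 := right_ne_zero_of_mul hP
  rw [Pool.Agent.TH167.SH.evP_eval] at hP2
  by_cases hs : hZero P d w = max 0 (chi d w)
  · exact Or.inl hs
  · right
    have hsp := special_of_ne.1 hs
    rcases hF' ℂ P hP2 hsp with h | ⟨d', w', k, C, e, u, N, d1, w1, h1, h2, h3, h4, h5, h6⟩
    · left
      exact Pool.Agent.TH167.SH.mspecial_curve ((Pool.Agent.TH167.SH.mspecial_conv P d w).2 h)
    · by_cases hN : ∃ a, 2 ≤ N a
      · left
        obtain ⟨a, ha⟩ := hN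
        refine ⟨C a, e a, u a, Pool.Agent.TH167.SH.minusOne_iff.2 (h1.exc a), ?_⟩
        rw [Pool.Agent.TH167.SH.inter_eq, h1.neg a]
        omega
      · right
        push Not at hN
        have hN1 : N = fun _ => 1 := by
          funext a
          have := h1.pos a
          have := hN a
          omega
        subst hN1
        refine ⟨d', w', k, C, e, u, d1, w1, Pool.Agent.TH167.SH.decomp_iff.2 h1,
          Pool.Agent.TH167.SH.chain_conv h2, h3, ?_, special_of_ne.2 h4,
          not_not.1 h6⟩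
        unfold hZero
        rw [Pool.Agent.TH167.SH.sys_eq, Pool.Agent.TH167.SH.sys_eq, h5]

end Pool.Agent.Results.MP_70e04f_ag.CurveChainForms
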